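import Pool.Agent.N794.CG.Apps2
import Pool.Agent.R459.Eq18

/-!
# Lang–Trotter counts for random curves `y² = x³ + a x + n` whose coefficients are random integers with exchangeable blocks of digits

Method: if blocks of digits can be exchanged then the exponential sums are exponentially small in the number of the
places at which the frequency is not close to a rational number with a small denominator (helper625,
`Pool.Agent.N625.PT`); a mixture with the uniform distribution has the decay which is needed for the passage to sums over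
primes of functions of residues, which is from the starting library (`Pool.Agent.R459.Eq`).
-/

set_option autoImplicit false

namespace Pool.Agent.Results.MP_f1937f_nt.ExchangeableFamilies

open Finset Filter Pool.Agent.R459.Eq Pool.Agent.N794.CG
open Pool.Agent.W263.BSD (GoodPrime pointCount)

/-- The probability, for the distribution `μ` on the words of `k` digits (the integers `v < b ^ k`), that the word begins with
the `i` digits of `u < b ^ i`. -/
noncomputable def begins (b k : ℕ) (μ : ℕ → ℝ) (i u : ℕ) : ℝ := ∑ w ∈ range (b ^ (k - i)), μ (u * b ^ (k - i) + w)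

/-- `p` is a probability on the words of `k` digits in base `b`, read as integers `v < b ^ k`. There is another probability
`μ` with `p ≤ k ^ T μ` such that after every beginning `u` two different blocks `a`, `a'` of `L` digits can be exchanged:
`p (u a w) = r p (u a' w)` for all endings `w`, with a factor `r` between `η` and `1 / η` which does not depend on `w`; and
given the beginning `u`, each of the two blocks comes next with a probability of at least `η` in the distribution `μ`.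
(For `T = 0` one has `μ = p`. For the uniform distribution on a set of words `r` is `1`.) -/
structure Exchangeable (b L : ℕ) (η : ℝ) (T k : ℕ) (p : ℕ → ℝ) : Prop where
  nonneg : ∀ v, 0 ≤ p v
  sum : ∑ v ∈ range (b ^ k), p v = 1
  dominated : ∃ μ : ℕ → ℝ, (∀ v, 0 ≤ μ v) ∧ ∑ v ∈ range (b ^ k), μ v = 1 ∧ (∀ v < b ^ k, p v ≤ (k : ℝ) ^ T * μ v) ∧
    ∀ i u : ℕ, i + L ≤ k → u < b ^ i → ∃ (a a' : ℕ) (r : ℝ), a < a' ∧ a' < b ^ L ∧ η ≤ r ∧ η * r ≤ 1 ∧
      (∀ w < b ^ (k - (i + L)), p ((b ^ L * u + a) * b ^ (k - (i + L)) + w) = r * p ((b ^ L * u + a') * b ^ (k - (i + L)) + w)) ∧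
      η * begins b k μ i u ≤ begins b k μ (i + L) (b ^ L * u + a) ∧
      η * begins b k μ i u ≤ begins b k μ (i + L) (b ^ L * u + a')

lemma begins_sum (b k : ℕ) (μ : ℕ → ℝ) (i u : ℕ) (hi : i < k) :
    ∑ a ∈ range b, begins b k μ (i + 1) (b * u + a) = begins b k μ i u := by
  unfold begins
  obtain ⟨n, hn⟩ : ∃ n, k - i = n + 1 := ⟨k - i - 1, by omega⟩
  have h1 : k - (i + 1) = n := by omega
  rw [h1, hn, pow_succ, mul_comm (b ^ n) b, Pool.Agent.N625.PT.sum_blocks b (b ^ n)]
  apply sum_congr rfl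
  intro a _
  apply sum_congr rfl
  intro w _
  congr 1
  ring

lemma flex_of {b L T k : ℕ} {η : ℝ} {p : ℕ → ℝ} (hp : Exchangeable b L η T k p) : Pool.Agent.N625.PT.Flex b L η T k p := by
  obtain ⟨h0, h1, μ, m0, m1, m2, m3⟩ := hp
  have hT : (0 : ℝ) ≤ (k : ℝ) ^ T := by positivity
  have hb0 : ∀ i u, 0 ≤ begins b k μ i u := fun i u => sum_nonneg fun w _ => m0 _
  refine ⟨h0, h1, fun i u => (k : ℝ) ^ T * begins b k μ i u, fun i u => mul_nonneg hT (hb0 i u), ?_, ?_, ?_, ?_⟩
  · intro v hv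
    refine (m2 v hv).trans (le_of_eq ?_)
    unfold begins
    simp
  · intro i hi u _
    simp only
    rw [← mul_sum, begins_sum b k μ i u hi]
  · simp only
    have : begins b k μ 0 0 = 1 := by
      unfold begins
      simpa using m1
    rw [this, mul_one]
  · intro i u hi hu
    obtain ⟨a, a', r, q1, q2, q3, q4, q5, q6, q7⟩ := m3 i u hi hu
    refine ⟨a, a', r, q1, q2, q3, q4, q5, ?_, ?_⟩
    · simp only
      calc η * ((k : ℝ) ^ T * begins b k μ i u) = (k : ℝ) ^ T * (η * begins b k μ i u) := by ring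
        _ ≤ _ := mul_le_mul_of_nonneg_left q6 hT
    · simp only
      calc η * ((k : ℝ) ^ T * begins b k μ i u) = (k : ℝ) ^ T * (η * begins b k μ i u) := by ring
        _ ≤ _ := mul_le_mul_of_nonneg_left q7 hT

open Classical in
/-- The random integer `n = c + κ v` has the property `P` with a probability of at least `1 - τ`, if `v < b ^ k` is random with the
distribution `p`. -/
def Almost (b k : ℕ) (p : ℕ → ℝ) (κ c : ℤ) (τ : ℝ) (P : ℤ → Prop) : Prop :=
  ∑ v ∈ range (b ^ k), (if P (c + κ * v) then 0 else p v) ≤ τ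

lemma almost_of {b k : ℕ} {p : ℕ → ℝ} {κ c : ℤ} {τ : ℝ} {P Q : ℤ → Prop}
    (h : Mostly (range (b ^ k)) p (fun v => c + κ * (v : ℕ)) τ P) (hPQ : ∀ n, P n → Q n) : Almost b k p κ c τ Q := by
  classical
  have h1 := h ((range (b ^ k)).filter (fun v : ℕ => ¬ Q (c + κ * v))) (filter_subset _ _)
    (fun i hi hP => (mem_filter.1 hi).2 (hPQ _ hP))
  unfold Almost
  refine le_trans (le_of_eq ?_) h1
  rw [sum_filter]
  apply sum_congr rfl
  intro v _
  by_cases hv : Q (c + κ * v)
  · rw [if_pos hv, if_neg (not_not.2 hv)]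
  · rw [if_neg hv, if_pos hv]

/-- `p` is a prime of good reduction of `y² = x³ + a x + n`, and the trace of Frobenius `a_p = p - N_p` is `r`. -/
def Trace (r : ℤ) (p : ℕ) (a n : ℤ) : Prop := GoodPrime a n p ∧ (p : ℤ) - pointCount a n p = r

open Classical in
/-- The number `P_{E, r}(x)` of the primes `p ≤ x` of good reduction of `E : y² = x³ + a x + n` with `a_p(E) = r`. -/
noncomputable def langTrotter (a n r : ℤ) (x : ℕ) : ℕ := ((range (x + 1)).filter (fun p => Trace r p a n)).card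

open Classical in
/-- The sum over the primes `p ≤ x` of the proportion of the residues `ν` modulo `p` for which `p` is a prime of good reduction
of `y² = x³ + a x + ν` with trace `r`. -/
noncomputable def model (a r : ℤ) (x : ℕ) : ℝ :=
  ∑ p ∈ (range (x + 1)).filter Nat.Prime, (((range p).filter (fun ν : ℕ => Trace r p a ν)).card : ℝ) / p

open Classical in
/-- The sum over the primes `p ≤ x` of the proportion of the pairs `(α, ν)` of residues modulo `p` for which `p` is a prime of
good reduction of `y² = x³ + α x + ν` with trace `r`. -/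
noncomputable def modelPairs (r : ℤ) (x : ℕ) : ℝ :=
  ∑ p ∈ (range (x + 1)).filter Nat.Prime,
    (((range p ×ˢ range p).filter (fun z : ℕ × ℕ => Trace r p z.1 z.2)).card : ℝ) / (p : ℝ) ^ 2

lemma pri_eq (x : ℕ) [DecidablePred Nat.Prime] : (range (x + 1)).filter Nat.Prime = pri x := by
  unfold pri
  congr!

lemma langTrotter_eq (a n r : ℤ) (x : ℕ) : langTrotter a n r x = cntR (Trace r) a n x := by
  classical
  unfold langTrotter cntR
  congr 1
  ext p
  simp only [mem_filter, mem_range, mem_pri]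
  constructor
  · rintro ⟨h1, h2⟩
    exact ⟨⟨by omega, h2.1.1⟩, h2⟩
  · rintro ⟨h1, h2⟩
    exact ⟨by omega, h2⟩

lemma model_eq (a r : ℤ) (x : ℕ) : model a r x = ∑ p ∈ pri x, Pool.Agent.R459.Eq.dens (Trace r) a p := by
  classical
  unfold model Pool.Agent.R459.Eq.dens
  rw [pri_eq]

lemma modelPairs_eq (r : ℤ) (x : ℕ) : modelPairs r x = ∑ p ∈ pri x, dens2 (Trace r) p := by
  classical
  unfold modelPairs dens2
  rw [pri_eq]

lemma trace_per (r : ℤ) (p : ℕ) (a a' n n' : ℤ) (h : (p : ℤ) ∣ a - a') (h' : (p : ℤ) ∣ n - n') :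
    Trace r p a n ↔ Trace r p a' n' := by
  have e1 : ((a : ℤ) : ZMod p) = ((a' : ℤ) : ZMod p) := by
    rw [← sub_eq_zero, ← Int.cast_sub, ZMod.intCast_zmod_eq_zero_iff_dvd]
    exact h
  have e2 : ((n : ℤ) : ZMod p) = ((n' : ℤ) : ZMod p) := by
    rw [← sub_eq_zero, ← Int.cast_sub, ZMod.intCast_zmod_eq_zero_iff_dvd]
    exact h'
  have h1 : GoodPrime a n p ↔ GoodPrime a' n' p := by
    unfold GoodPrime
    rw [← ZMod.intCast_zmod_eq_zero_iff_dvd, ← ZMod.intCast_zmod_eq_zero_iff_dvd]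
    push_cast
    rw [e1, e2]
  have h2 : pointCount a n p = pointCount a' n' p := by
    unfold pointCount
    rw [e1, e2]
  unfold Trace
  rw [h1, h2]


/-- Let `b ≥ 2`, `L ≥ 1`, `0 < η ≤ 1` and `T₀` be fixed. Let `0 < δ ≤ 1 / 2`. There is `W` such that for `κ ≠ 0` and all sufficiently large `X` the following holds for all `k`, all probabilities `w` on the
words of `k` digits in which blocks of `L` digits can be exchanged (`Exchangeable b L η T₀ k w`) and all `c`.

(1) For EVERY integer `a`: if `v < b ^ k` is random with the distribution `w` then with a probability of at least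
`1 - 4 k ^ T₀ X ^ (- δ / 2)` the integer `n = c + κ v` satisfies for ALL `x ≥ X` with `x ^ W ≤ b ^ k` and ALL integers
`|r| ≤ x ^ (δ / 2)`: with `S` the sum over `p ≤ x` of the proportion of the residues `ν` modulo `p` such that
`y² = x³ + a x + ν` has the trace `r`, and `S'` the same sum over `p ≤ 2 x`, the number of the primes `p ≤ x` of good
reduction of `y² = x³ + a x + n` with the trace `r` differs from `S` by at most `(max 1 S') ^ (1 / 2) x ^ δ`.

(2) With a probability of at least `1 - 4 k ^ T₀ X ^ (- δ / 2)` the integer `a = c + κ v` satisfies for ALL `x ≥ X` with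
`x ^ W ≤ b ^ k` and ALL integers `|r| ≤ x ^ (δ / 2)`: the sum `S` differs from the sum over `p ≤ x` of the proportion of the
PAIRS of coefficients modulo `p` which have the trace `r` by at most `x ^ δ` times the square root of the maximum of `1` and
the sum of the proportions of the pairs over `p ≤ 2 x`. -/
theorem result (b L : ℕ) (hb : 2 ≤ b) (hL : 1 ≤ L) (η : ℝ) (hη0 : 0 < η) (hη1 : η ≤ 1) (T₀ : ℕ) (δ : ℝ) (hδ : 0 < δ)
    (hδ1 : δ ≤ 1 / 2) : ∃ W : ℕ, 1 ≤ W ∧ ∀ κ : ℤ, κ ≠ 0 → ∃ X₀ : ℕ, ∀ X : ℕ, X₀ ≤ X →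
    ∀ (k : ℕ) (w : ℕ → ℝ), Exchangeable b L η T₀ k w → ∀ c : ℤ,
    (∀ a : ℤ, Almost b k w κ c (2 * ((k : ℝ) ^ T₀ * (2 * (X : ℝ) ^ (-(δ / 2))))) (fun n => ∀ x : ℕ, X ≤ x → x ^ W ≤ b ^ k → ∀ r : ℤ, (|r| : ℝ) ≤ (x : ℝ) ^ (δ / 2) →
      |(langTrotter a n r x : ℝ) - model a r x| ≤ √(max 1 (model a r (2 * x))) * (x : ℝ) ^ δ)) ∧
    Almost b k w κ c (2 * ((k : ℝ) ^ T₀ * (2 * (X : ℝ) ^ (-(δ / 2))))) (fun a => ∀ x : ℕ, X ≤ x → x ^ W ≤ b ^ k → ∀ r : ℤ, (|r| : ℝ) ≤ (x : ℝ) ^ (δ / 2) →
      |model a r x - modelPairs r x| ≤ √(max 1 (modelPairs r (2 * x))) * (x : ℝ) ^ δ) := by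
  obtain ⟨W, hW, H⟩ := fineAt_flex δ hδ hδ1 b L hb hL η hη0 hη1 T₀
  refine ⟨W, hW, fun κ hκ => ?_⟩
  obtain ⟨X₀, J⟩ := H κ hκ
  refine ⟨X₀, fun X hX k w hw c => ?_⟩
  have hfew : ∀ σ : ℤ, σ = 1 ∨ σ = -1 → ∀ p : ℕ, p.Prime → ∀ (a n : ℤ) (Q : Finset ℕ), (∀ j ∈ Q, Trace (σ * j) p a n) →
      Q.card ≤ Nat.log 2 p + 3 := by
    intro σ hσ p _ a n Q hQ
    have h1 : Q.card ≤ 1 := by
      rw [card_le_one]
      intro j hj j' hj'
      have h2 := (hQ j hj).2
      have h3 := (hQ j' hj').2
      rw [h2] at h3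
      have h4 : (j : ℤ) = j' := by
        rcases hσ with h | h <;> rw [h] at h3 <;> linarith
      exact_mod_cast h4
    omega
  obtain ⟨h1, h2⟩ := (J X hX k w (flex_of hw) c).two_count (fun j : ℕ => Trace (1 * j)) (fun j p _ a a' n n' => trace_per _ p a a' n n')
    (hfew 1 (Or.inl rfl))
  obtain ⟨h3, h4⟩ := (J X hX k w (flex_of hw) c).two_count (fun j : ℕ => Trace (-1 * j)) (fun j p _ a a' n n' => trace_per _ p a a' n n')
    (hfew (-1) (Or.inr rfl))
  have hr : ∀ r : ℤ, ∃ j : ℕ, (r = 1 * j ∨ r = -1 * j) ∧ (j : ℝ) = |(r : ℝ)| := by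
    intro r
    refine ⟨r.natAbs, ?_, ?_⟩
    · rcases Int.natAbs_eq r with h | h
      · left
        omega
      · right
        omega
    · rw [← Int.cast_abs, Int.abs_eq_natAbs]
      rfl
  have h8 : 2 * ((k : ℝ) ^ T₀ * (2 * (X : ℝ) ^ (-(δ / 2)))) = (k : ℝ) ^ T₀ * (2 * (X : ℝ) ^ (-(δ / 2))) + (k : ℝ) ^ T₀ * (2 * (X : ℝ) ^ (-(δ / 2))) := by ring
  rw [h8]
  constructor
  · intro a
    refine almost_of (Mostly.and (fun i _ => hw.nonneg i) (h1 a) (h3 a)) ?_
    rintro n ⟨hn, hn'⟩ x hXx hx r hrx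
    rw [langTrotter_eq, model_eq, model_eq]
    obtain ⟨j, hj | hj, hj2⟩ := hr r
    · rw [hj]
      exact (hn x hXx hx).2 j (by rw [hj2]; exact hrx)
    · rw [hj]
      exact (hn' x hXx hx).2 j (by rw [hj2]; exact hrx)
  · refine almost_of (Mostly.and (fun i _ => hw.nonneg i) h2 h4) ?_
    rintro a ⟨hn, hn'⟩ x hXx hx r hrx
    rw [model_eq, modelPairs_eq, modelPairs_eq]
    obtain ⟨j, hj | hj, hj2⟩ := hr r
    · rw [hj]
      exact (hn x hXx hx).2 j (by rw [hj2]; exact hrx)
    · rw [hj]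
      exact (hn' x hXx hx).2 j (by rw [hj2]; exact hrx)

end Pool.Agent.Results.MP_f1937f_nt.ExchangeableFamilies
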