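import Pool.Agent.N193.PS.Eqs2
import Pool.Agent.R459.Eq18

/-!
# Lang–Trotter counts for almost all curves `y² = x³ + a x + n` with coefficients from values of functions of non-integral
index

From Mathlib: `ContDiffAt ℝ ⊤`: infinitely differentiable at a point; `iteratedDeriv m f`: the derivative of order `m`;
`⌊y⌋₊`: the integer part of `y`, and `0` for `y < 0`; `Nat.Prime`: primes.

Method: the characteristic function of the integer part of `f n` is small at all frequencies which are not close to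
integers (van der Corput differencing and the inequality of Kusmin and Landau on dyadic blocks for all orders of
differencing, a discrete Fejer kernel for the passage to integer parts), and the values are not concentrated on short
intervals. The passage from the
characteristic function to sums over primes of functions of residues, for almost all values, is from the starting files
(`Pool.Agent.R459.Eq`).
-/

set_option autoImplicit false

namespace Pool.Agent.Results.MP_f1937f_nt.NonIntegralOrderCurves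

open Finset Filter Pool.Agent.R459.Eq
open Pool.Agent.W263.BSD (GoodPrime pointCount)

/-- `f` is smoothly varying of index `c`: it is infinitely differentiable and positive for large arguments, and
`t ^ m f⁽ᵐ⁾(t) / f(t) → c (c - 1) ... (c - m + 1)` for every `m`. -/
def SmoothlyVarying (c : ℝ) (f : ℝ → ℝ) : Prop :=
  (∃ t₀ : ℝ, ∀ t > t₀, ContDiffAt ℝ ((⊤ : ℕ∞) : WithTop ℕ∞) f t ∧ 0 < f t) ∧
  ∀ m : ℕ, Tendsto (fun t => t ^ m * iteratedDeriv m f t / f t) atTop (nhds (∏ i ∈ range m, (c - i)))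

open Classical in
/-- Almost all the integers `n = c₀ + κ ⌊f m⌋`, `1 ≤ m ≤ M`, up to a proportion of at most `τ` of the `m`, have the
property `P`. -/
def Almost (f : ℝ → ℝ) (M : ℕ) (κ c₀ : ℤ) (τ : ℝ) (P : ℤ → Prop) : Prop :=
  (((Icc 1 M).filter (fun m : ℕ => ¬ P (c₀ + κ * (⌊f m⌋₊ : ℕ)))).card : ℝ) ≤ τ * M

lemma almost_of {f : ℝ → ℝ} {M : ℕ} {κ c₀ : ℤ} {τ : ℝ} {P Q : ℤ → Prop}
    (h : Pool.Agent.N193.PS.AlmostV f M κ c₀ τ P) (hPQ : ∀ n, P n → Q n) : Almost f M κ c₀ τ Q := by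
  have h1 := Pool.Agent.N193.PS.AlmostV.mono h hPQ
  unfold Pool.Agent.N193.PS.AlmostV at h1
  unfold Almost
  convert h1

/-- `p` is a prime of good reduction of `y² = x³ + a x + n`, and the trace of Frobenius `a_p = p - N_p` is `r`. -/
def Trace (r : ℤ) (p : ℕ) (a n : ℤ) : Prop := GoodPrime a n p ∧ (p : ℤ) - pointCount a n p = r

open Classical in
/-- The number `P_{E, r}(x)` of the primes `p ≤ x` of good reduction of `E : y² = x³ + a x + n` with `a_p(E) = r`. -/
noncomputable def langTrotter (a n r : ℤ) (x : ℕ) : ℕ := ((range (x + 1)).filter (fun p => Trace r p a n)).card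

open Classical in
/-- The sum over the primes `p ≤ x` of the proportion of the residues `ν` modulo `p` for which `p` is a prime of good reduction
of `y² = x³ + a x + ν` with trace `r`. -/
noncomputable def model (a r : ℤ) (x : ℕ) : ℝ :=
  ∑ p ∈ (range (x + 1)).filter Nat.Prime, (((range p).filter (fun ν : ℕ => Trace r p a ν)).card : ℝ) / p

open Classical in
/-- The sum over the primes `p ≤ x` of the proportion of the pairs `(α, ν)` of residues modulo `p` for which `p` is a prime of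
good reduction of `y² = x³ + α x + ν` with trace `r`. -/
noncomputable def modelPairs (r : ℤ) (x : ℕ) : ℝ :=
  ∑ p ∈ (range (x + 1)).filter Nat.Prime,
    (((range p ×ˢ range p).filter (fun z : ℕ × ℕ => Trace r p z.1 z.2)).card : ℝ) / (p : ℝ) ^ 2

lemma pri_eq (x : ℕ) [DecidablePred Nat.Prime] : (range (x + 1)).filter Nat.Prime = pri x := by
  unfold pri
  congr!

lemma langTrotter_eq (a n r : ℤ) (x : ℕ) : langTrotter a n r x = cntR (Trace r) a n x := by
  classical
  unfold langTrotter cntR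
  congr 1
  ext p
  simp only [mem_filter, mem_range, mem_pri]
  constructor
  · rintro ⟨h1, h2⟩
    exact ⟨⟨by omega, h2.1.1⟩, h2⟩
  · rintro ⟨h1, h2⟩
    exact ⟨by omega, h2⟩

lemma model_eq (a r : ℤ) (x : ℕ) : model a r x = ∑ p ∈ pri x, Pool.Agent.R459.Eq.dens (Trace r) a p := by
  classical
  unfold model Pool.Agent.R459.Eq.dens
  rw [pri_eq]

lemma modelPairs_eq (r : ℤ) (x : ℕ) : modelPairs r x = ∑ p ∈ pri x, dens2 (Trace r) p := by
  classical
  unfold modelPairs dens2
  rw [pri_eq]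

lemma trace_per (r : ℤ) (p : ℕ) (a a' n n' : ℤ) (h : (p : ℤ) ∣ a - a') (h' : (p : ℤ) ∣ n - n') :
    Trace r p a n ↔ Trace r p a' n' := by
  have e1 : ((a : ℤ) : ZMod p) = ((a' : ℤ) : ZMod p) := by
    rw [← sub_eq_zero, ← Int.cast_sub, ZMod.intCast_zmod_eq_zero_iff_dvd]
    exact h
  have e2 : ((n : ℤ) : ZMod p) = ((n' : ℤ) : ZMod p) := by
    rw [← sub_eq_zero, ← Int.cast_sub, ZMod.intCast_zmod_eq_zero_iff_dvd]
    exact h'
  have h1 : GoodPrime a n p ↔ GoodPrime a' n' p := by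
    unfold GoodPrime
    rw [← ZMod.intCast_zmod_eq_zero_iff_dvd, ← ZMod.intCast_zmod_eq_zero_iff_dvd]
    push_cast
    rw [e1, e2]
  have h2 : pointCount a n p = pointCount a' n' p := by
    unfold pointCount
    rw [e1, e2]
  unfold Trace
  rw [h1, h2]


/-- **(1)** Let `f` be smoothly varying of an index `c > 0` which is not an integer, and let `0 < δ ≤ 1 / 2`. There is `W` such
that for all `κ ≠ 0` and all sufficiently large `X` the following holds for all `M` and all integers `c₀`.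

For EVERY integer `a`, almost all the integers `n = c₀ + κ ⌊f m⌋`, `m ≤ M`, up to a proportion of at most `4 X ^ (- δ / 2)`,
have for ALL `x ≥ X` with `x ^ W ≤ f M` and ALL integers `|r| ≤ x ^ (δ / 2)`: with `S` the sum over `p ≤ x` of the proportion of
the residues `ν` modulo `p` such that `y² = x³ + a x + ν` has the trace `r`, and `S'` the same sum over `p ≤ 2 x`, the number
of the primes `p ≤ x` of good reduction of `y² = x³ + a x + n` with the trace `r` differs from `S` by at most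
`(max 1 S') ^ (1 / 2) x ^ δ`.

Almost all the integers `a = c₀ + κ ⌊f m⌋`, `m ≤ M`, up to a proportion of at most `4 X ^ (- δ / 2)`, have for ALL `x ≥ X` with
`x ^ W ≤ f M` and ALL integers `|r| ≤ x ^ (δ / 2)`: the sum `S` differs from the sum over `p ≤ x` of the proportion of the
PAIRS of coefficients modulo `p` which have the trace `r` by at most `x ^ δ` times the square root of the maximum of `1` and
the sum of the proportions of the pairs over `p ≤ 2 x`.

**(2)** Part (1) applies to all the functions `f t = ∑ a z t ^ z.1 (log t) ^ z.2` (finite sums) with a leading term `z₀`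
whose coefficient is positive and whose exponent `c = z₀.1` is positive and not an integer; for example to `n ^ c`. -/
theorem result :
    (∀ (c : ℝ) (f : ℝ → ℝ), 0 < c → (∀ m : ℕ, c ≠ m) → SmoothlyVarying c f →
      ∀ δ : ℝ, 0 < δ → δ ≤ 1 / 2 → ∃ W : ℕ, 1 ≤ W ∧
      ∀ κ : ℤ, κ ≠ 0 → ∃ X₀ : ℕ, ∀ X : ℕ, X₀ ≤ X → ∀ (M : ℕ) (c₀ : ℤ),
      (∀ a : ℤ, Almost f M κ c₀ (4 * (X : ℝ) ^ (-(δ / 2))) (fun n =>
        ∀ x : ℕ, X ≤ x → (x : ℝ) ^ W ≤ f M → ∀ r : ℤ, (|r| : ℝ) ≤ (x : ℝ) ^ (δ / 2) →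
          |(langTrotter a n r x : ℝ) - model a r x| ≤ √(max 1 (model a r (2 * x))) * (x : ℝ) ^ δ)) ∧
      Almost f M κ c₀ (4 * (X : ℝ) ^ (-(δ / 2))) (fun a =>
        ∀ x : ℕ, X ≤ x → (x : ℝ) ^ W ≤ f M → ∀ r : ℤ, (|r| : ℝ) ≤ (x : ℝ) ^ (δ / 2) →
          |model a r x - modelPairs r x| ≤ √(max 1 (modelPairs r (2 * x))) * (x : ℝ) ^ δ)) ∧
    (∀ (F : Finset (ℝ × ℝ)) (a : ℝ × ℝ → ℝ) (z₀ : ℝ × ℝ), z₀ ∈ F → 0 < a z₀ →
      (∀ z ∈ F, z ≠ z₀ → z.1 < z₀.1 ∨ z.1 = z₀.1 ∧ z.2 < z₀.2) →
      SmoothlyVarying z₀.1 (fun t => ∑ z ∈ F, a z * t ^ z.1 * Real.log t ^ z.2)) := by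
  refine ⟨fun c f hc hn hf δ hδ hδ1 => ?_, fun F a z₀ h1 h2 h3 => Pool.Agent.N193.PS.gp_sv F a z₀ h1 h2 h3⟩
  obtain ⟨W, hW, H⟩ := Pool.Agent.N193.PS.sv_two_count c f hc hn hf δ hδ hδ1
  refine ⟨W, hW, fun κ hκ => ?_⟩
  obtain ⟨X₀, J⟩ := H κ hκ
  refine ⟨X₀, fun X hX M c₀ => ?_⟩
  have hfew : ∀ σ : ℤ, σ = 1 ∨ σ = -1 → ∀ p : ℕ, p.Prime → ∀ (a n : ℤ) (Q : Finset ℕ), (∀ j ∈ Q, Trace (σ * j) p a n) →
      Q.card ≤ Nat.log 2 p + 3 := by
    intro σ hσ p _ a n Q hQ
    have h1 : Q.card ≤ 1 := by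
      rw [card_le_one]
      intro j hj j' hj'
      have h2 := (hQ j hj).2
      have h3 := (hQ j' hj').2
      rw [h2] at h3
      have h4 : (j : ℤ) = j' := by
        rcases hσ with h | h <;> rw [h] at h3 <;> linarith
      exact_mod_cast h4
    omega
  obtain ⟨h1, h2⟩ := J X hX M c₀ (fun j : ℕ => Trace (1 * j)) (fun j p _ a a' n n' => trace_per _ p a a' n n') (hfew 1 (Or.inl rfl))
  obtain ⟨h3, h4⟩ := J X hX M c₀ (fun j : ℕ => Trace (-1 * j)) (fun j p _ a a' n n' => trace_per _ p a a' n n') (hfew (-1) (Or.inr rfl))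
  have hr : ∀ r : ℤ, ∃ j : ℕ, (r = 1 * j ∨ r = -1 * j) ∧ (j : ℝ) = |(r : ℝ)| := by
    intro r
    refine ⟨r.natAbs, ?_, ?_⟩
    · rcases Int.natAbs_eq r with h | h
      · left
        omega
      · right
        omega
    · rw [← Int.cast_abs, Int.abs_eq_natAbs]
      rfl
  have h8 : (4 : ℝ) * (X : ℝ) ^ (-(δ / 2)) = 2 * (X : ℝ) ^ (-(δ / 2)) + 2 * (X : ℝ) ^ (-(δ / 2)) := by ring
  rw [h8]
  constructor
  · intro a
    refine almost_of (Pool.Agent.N193.PS.AlmostV.and (h1 a) (h3 a)) ?_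
    rintro n ⟨hn, hn'⟩ x hXx hxW r hrx
    rw [langTrotter_eq, model_eq, model_eq]
    obtain ⟨j, hj | hj, hj2⟩ := hr r
    · rw [hj]
      exact (hn x hXx hxW).2 j (by rw [hj2]; exact hrx)
    · rw [hj]
      exact (hn' x hXx hxW).2 j (by rw [hj2]; exact hrx)
  · refine almost_of (Pool.Agent.N193.PS.AlmostV.and h2 h4) ?_
    rintro a ⟨hn, hn'⟩ x hXx hxW r hrx
    rw [model_eq, modelPairs_eq, modelPairs_eq]
    obtain ⟨j, hj | hj, hj2⟩ := hr r
    · rw [hj]
      exact (hn x hXx hxW).2 j (by rw [hj2]; exact hrx)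
    · rw [hj]
      exact (hn' x hXx hxW).2 j (by rw [hj2]; exact hrx)

end Pool.Agent.Results.MP_f1937f_nt.NonIntegralOrderCurves
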