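import Pool.Agent.N384.MQ.Eqs2
import Pool.Agent.N384.MQ.Gen

/-!
# Lang–Trotter counts for almost all curves `y² = x³ + a x + n` with coefficients from residues with small Fourier coefficients

From Mathlib: `ZMod.stdAddChar`: the additive character `j ↦ exp (2 π i j / q)` of the integers modulo `q`; `ZMod.val`: the
least residue.

Method: a family of residues modulo `q` with small Fourier coefficients has small exponential sums at all real
frequencies which are not close to integers. The passage from such exponential sums to sums over primes of functions of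
residues, for almost all members, is from the starting files (`Pool.Agent.R459.Eq`). Examples: a lemma of Ajtai, Iwaniec,
Komlos, Pintz and Szemeredi on quotients by small primes, the Stepanov type lemma of Heath-Brown and Konyagin for
subgroups (library `H435R3.HBK`, `N825.FC`), and Weyl sums without losses (library `H373R2.NB`).
-/

set_option autoImplicit false

namespace Pool.Agent.Results.MP_f1937f_nt.ResidueFamilies

open Finset Filter Pool.Agent.R459.Eq
open Pool.Agent.W263.BSD (GoodPrime pointCount)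

/-- The Fourier coefficients of the residues `y i`, `i ∈ s`, modulo `q` at the nonzero frequencies are at most
`η` times the number of the residues: `|∑ i ∈ s, e(h y_i / q)| ≤ η |s|` for all `h ≠ 0` modulo `q`. -/
def Flat {ι : Type} (q : ℕ) [NeZero q] (η : ℝ) (s : Finset ι) (y : ι → ZMod q) : Prop :=
  ∀ h : ZMod q, h ≠ 0 → ‖∑ i ∈ s, (ZMod.stdAddChar (h * y i) : ℂ)‖ ≤ η * s.card

open Classical in
/-- Almost all the integers `n = c₀ + κ y_i`, `i ∈ s` (with the least residues `0 ≤ y_i < q`), up to a proportion of at most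
`τ` of the `i`, have the property `P`. -/
def Almost {ι : Type} {q : ℕ} (s : Finset ι) (y : ι → ZMod q) (κ c₀ : ℤ) (τ : ℝ) (P : ℤ → Prop) : Prop :=
  ((s.filter (fun i => ¬ P (c₀ + κ * ((y i).val : ℕ)))).card : ℝ) ≤ τ * s.card

lemma almost_of {ι : Type} {q : ℕ} {s : Finset ι} {y : ι → ZMod q} {κ c₀ : ℤ} {τ : ℝ} {P Q : ℤ → Prop}
    (h : Pool.Agent.N384.MQ.AlmostF s y κ c₀ τ P) (hPQ : ∀ n, P n → Q n) : Almost s y κ c₀ τ Q := by
  have h1 := Pool.Agent.N384.MQ.AlmostF.mono h hPQ
  unfold Pool.Agent.N384.MQ.AlmostF at h1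
  unfold Almost
  convert h1

lemma fam_of {ι : Type} {q : ℕ} [NeZero q] {s : Finset ι} {y : ι → ZMod q} {Z : ℝ} (hZ : 0 < Z) (hZq : Z ≤ q)
    (h : Flat q (1 / (Z * (42 + 3 * Real.log q))) s y) :
    Pool.Agent.N384.MQ.Fam q s y (Z * (42 + 3 * Real.log q)) Z :=
  ⟨mul_pos hZ (by have := Real.log_natCast_nonneg q; linarith), h, hZq, le_rfl⟩

/-- `p` is a prime of good reduction of `y² = x³ + a x + n`, and the trace of Frobenius `a_p = p - N_p` is `r`. -/
def Trace (r : ℤ) (p : ℕ) (a n : ℤ) : Prop := GoodPrime a n p ∧ (p : ℤ) - pointCount a n p = r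

open Classical in
/-- The number `P_{E, r}(x)` of the primes `p ≤ x` of good reduction of `E : y² = x³ + a x + n` with `a_p(E) = r`. -/
noncomputable def langTrotter (a n r : ℤ) (x : ℕ) : ℕ := ((range (x + 1)).filter (fun p => Trace r p a n)).card

open Classical in
/-- The sum over the primes `p ≤ x` of the proportion of the residues `ν` modulo `p` for which `p` is a prime of good reduction
of `y² = x³ + a x + ν` with trace `r`. -/
noncomputable def model (a r : ℤ) (x : ℕ) : ℝ :=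
  ∑ p ∈ (range (x + 1)).filter Nat.Prime, (((range p).filter (fun ν : ℕ => Trace r p a ν)).card : ℝ) / p

open Classical in
/-- The sum over the primes `p ≤ x` of the proportion of the pairs `(α, ν)` of residues modulo `p` for which `p` is a prime of
good reduction of `y² = x³ + α x + ν` with trace `r`. -/
noncomputable def modelPairs (r : ℤ) (x : ℕ) : ℝ :=
  ∑ p ∈ (range (x + 1)).filter Nat.Prime,
    (((range p ×ˢ range p).filter (fun z : ℕ × ℕ => Trace r p z.1 z.2)).card : ℝ) / (p : ℝ) ^ 2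

lemma pri_eq (x : ℕ) [DecidablePred Nat.Prime] : (range (x + 1)).filter Nat.Prime = pri x := by
  unfold pri
  congr!

lemma langTrotter_eq (a n r : ℤ) (x : ℕ) : langTrotter a n r x = cntR (Trace r) a n x := by
  classical
  unfold langTrotter cntR
  congr 1
  ext p
  simp only [mem_filter, mem_range, mem_pri]
  constructor
  · rintro ⟨h1, h2⟩
    exact ⟨⟨by omega, h2.1.1⟩, h2⟩
  · rintro ⟨h1, h2⟩
    exact ⟨by omega, h2⟩

lemma model_eq (a r : ℤ) (x : ℕ) : model a r x = ∑ p ∈ pri x, Pool.Agent.R459.Eq.dens (Trace r) a p := by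
  classical
  unfold model Pool.Agent.R459.Eq.dens
  rw [pri_eq]

lemma modelPairs_eq (r : ℤ) (x : ℕ) : modelPairs r x = ∑ p ∈ pri x, dens2 (Trace r) p := by
  classical
  unfold modelPairs dens2
  rw [pri_eq]

lemma trace_per (r : ℤ) (p : ℕ) (a a' n n' : ℤ) (h : (p : ℤ) ∣ a - a') (h' : (p : ℤ) ∣ n - n') :
    Trace r p a n ↔ Trace r p a' n' := by
  have e1 : ((a : ℤ) : ZMod p) = ((a' : ℤ) : ZMod p) := by
    rw [← sub_eq_zero, ← Int.cast_sub, ZMod.intCast_zmod_eq_zero_iff_dvd]
    exact h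
  have e2 : ((n : ℤ) : ZMod p) = ((n' : ℤ) : ZMod p) := by
    rw [← sub_eq_zero, ← Int.cast_sub, ZMod.intCast_zmod_eq_zero_iff_dvd]
    exact h'
  have h1 : GoodPrime a n p ↔ GoodPrime a' n' p := by
    unfold GoodPrime
    rw [← ZMod.intCast_zmod_eq_zero_iff_dvd, ← ZMod.intCast_zmod_eq_zero_iff_dvd]
    push_cast
    rw [e1, e2]
  have h2 : pointCount a n p = pointCount a' n' p := by
    unfold pointCount
    rw [e1, e2]
  unfold Trace
  rw [h1, h2]

/-- **(1)** Let `0 < δ ≤ 1 / 2`. There is `W` such that for all `κ ≠ 0` and all sufficiently large `X` the following holds.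
Let `y i`, `i ∈ s`, be any finite family of residues modulo any `q` whose Fourier coefficients at the nonzero frequencies are
at most `|s| / (Z (42 + 3 log q))`, where `0 < Z ≤ q`, and let `c₀` be any integer.

For EVERY integer `a`, almost all the integers `n = c₀ + κ y_i`, `i ∈ s`, up to a proportion of at most `4 X ^ (- δ / 2)`,
have for ALL `x ≥ X` with `x ^ W ≤ Z` and ALL integers `|r| ≤ x ^ (δ / 2)`: with `S` the sum over `p ≤ x` of the proportion of
the residues `ν` modulo `p` such that `y² = x³ + a x + ν` has the trace `r`, and `S'` the same sum over `p ≤ 2 x`, the number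
of the primes `p ≤ x` of good reduction of `y² = x³ + a x + n` with the trace `r` differs from `S` by at most
`(max 1 S') ^ (1 / 2) x ^ δ`.

Almost all the integers `a = c₀ + κ y_i`, `i ∈ s`, up to a proportion of at most `4 X ^ (- δ / 2)`, have for ALL `x ≥ X` with
`x ^ W ≤ Z` and ALL integers `|r| ≤ x ^ (δ / 2)`: the sum `S` differs from the sum over `p ≤ x` of the proportion of the
PAIRS of coefficients modulo `p` which have the trace `r` by at most `x ^ δ` times the square root of the maximum of `1` and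
the sum of the proportions of the pairs over `p ≤ 2 x`.

**(2)**, **(3)** Examples. All the Fourier coefficients at nonzero frequencies are at most `|s| / K` for the following families
of residues modulo primes `p` (all large primes in (2)), for ALL `K ≥ 1`:
* the quotients `j / r` of the integers `0 ≤ j < S` by the primes `r ≤ R`, if `K log ^ 4 p ≤ R < p` and `R ^ 2 ≤ S`; thus
  (1) with `Z = log ^ B p` applies to such explicit sets with only `log ^ (3 B + 20) p` members;
* the cosets of all subgroups of the multiplicative group of an order of at least `5 p ^ (3/8) K ^ 3`;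
* the residues `a b + g(a) + k(b)`, `a ∈ A`, `b ∈ B`, for arbitrary sets with `|A| |B| ≥ p K ^ 2` and arbitrary
  functions `g` and `k`;
* the values `f(n)`, `0 ≤ n < x`, of all integer polynomials of degree `d` whose leading coefficient is not divisible by
  `p`, if `p ≥ C K ^ C` and `x ^ d ≥ C K ^ C p`, where `C` depends on `d`.
In the last three examples `K`, and thus `Z`, can be a power of `p`. -/
theorem result :
    (∀ δ : ℝ, 0 < δ → δ ≤ 1 / 2 → ∃ W : ℕ, 1 ≤ W ∧ ∀ κ : ℤ, κ ≠ 0 → ∃ X₀ : ℕ, ∀ X : ℕ, X₀ ≤ X →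
      ∀ (ι : Type) (q : ℕ) [NeZero q] (s : Finset ι) (y : ι → ZMod q) (Z : ℝ), 0 < Z → Z ≤ q →
      Flat q (1 / (Z * (42 + 3 * Real.log q))) s y → ∀ c₀ : ℤ,
      (∀ a : ℤ, Almost s y κ c₀ (4 * (X : ℝ) ^ (-(δ / 2))) (fun n =>
        ∀ x : ℕ, X ≤ x → (x : ℝ) ^ W ≤ Z → ∀ r : ℤ, (|r| : ℝ) ≤ (x : ℝ) ^ (δ / 2) →
          |(langTrotter a n r x : ℝ) - model a r x| ≤ √(max 1 (model a r (2 * x))) * (x : ℝ) ^ δ)) ∧
      Almost s y κ c₀ (4 * (X : ℝ) ^ (-(δ / 2))) (fun a =>
        ∀ x : ℕ, X ≤ x → (x : ℝ) ^ W ≤ Z → ∀ r : ℤ, (|r| : ℝ) ≤ (x : ℝ) ^ (δ / 2) →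
          |model a r x - modelPairs r x| ≤ √(max 1 (modelPairs r (2 * x))) * (x : ℝ) ^ δ)) ∧
    (∃ P₀ : ℕ, ∀ p : ℕ, P₀ ≤ p → ∀ [Fact p.Prime] (K : ℝ), 1 ≤ K →
      (∀ R S : ℕ, K * Real.log p ^ 4 ≤ R → R < p → R ^ 2 ≤ S →
        Flat p (1 / K) (((Icc 1 R).filter Nat.Prime) ×ˢ range S)
          (fun z => ((z.2 : ℕ) : ZMod p) * ((z.1 : ℕ) : ZMod p)⁻¹)) ∧
      (∀ (H : Subgroup (ZMod p)ˣ) (s : Finset (ZMod p)ˣ), (∀ u, u ∈ s ↔ u ∈ H) →
        5 * (p : ℝ) ^ (3 / 8 : ℝ) * K ^ 3 ≤ s.card → ∀ x : ZMod p, x ≠ 0 → Flat p (1 / K) s (fun u => x * (u : ZMod p))) ∧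
      (∀ (A B : Finset (ZMod p)) (g k : ZMod p → ZMod p), (p : ℝ) * K ^ 2 ≤ A.card * B.card →
        Flat p (1 / K) (A ×ˢ B) (fun z => z.1 * z.2 + g z.1 + k z.2))) ∧
    (∀ d : ℕ, 1 ≤ d → ∃ C : ℕ, ∀ p : ℕ, ∀ [Fact p.Prime] (f : Polynomial ℤ), f.natDegree = d →
      ¬ (p : ℤ) ∣ f.leadingCoeff → ∀ K : ℝ, 1 ≤ K → C * K ^ C ≤ p → ∀ x : ℕ, C * K ^ C * p ≤ (x : ℝ) ^ d →
      Flat p (1 / K) (range x) (fun n => ((f.eval (n : ℤ) : ℤ) : ZMod p))) := by
  refine ⟨?_, ?_, fun d hd => ?_⟩
  · intro δ hδ hδ1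
    obtain ⟨W, hW, H⟩ := Pool.Agent.N384.MQ.mq_two_count δ hδ hδ1
    refine ⟨W, hW, fun κ hκ => ?_⟩
    obtain ⟨X₀, J⟩ := H κ hκ
    refine ⟨X₀, fun X hX ι q _ s y Z hZ hZq hfl c₀ => ?_⟩
    have hfew : ∀ σ : ℤ, σ = 1 ∨ σ = -1 → ∀ p : ℕ, p.Prime → ∀ (a n : ℤ) (Q : Finset ℕ), (∀ j ∈ Q, Trace (σ * j) p a n) →
        Q.card ≤ Nat.log 2 p + 3 := by
      intro σ hσ p _ a n Q hQ
      have h1 : Q.card ≤ 1 := by
        rw [card_le_one]
        intro j hj j' hj'
        have h2 := (hQ j hj).2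
        have h3 := (hQ j' hj').2
        rw [h2] at h3
        have h4 : (j : ℤ) = j' := by
          rcases hσ with h | h <;> rw [h] at h3 <;> linarith
        exact_mod_cast h4
      omega
    obtain ⟨h1, h2⟩ := J X hX ι q s y _ Z (fam_of hZ hZq hfl) c₀ (fun j : ℕ => Trace (1 * j)) (fun j p _ a a' n n' => trace_per _ p a a' n n') (hfew 1 (Or.inl rfl))
    obtain ⟨h3, h4⟩ := J X hX ι q s y _ Z (fam_of hZ hZq hfl) c₀ (fun j : ℕ => Trace (-1 * j)) (fun j p _ a a' n n' => trace_per _ p a a' n n') (hfew (-1) (Or.inr rfl))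
    have hr : ∀ r : ℤ, ∃ j : ℕ, (r = 1 * j ∨ r = -1 * j) ∧ (j : ℝ) = |(r : ℝ)| := by
      intro r
      refine ⟨r.natAbs, ?_, ?_⟩
      · rcases Int.natAbs_eq r with h | h
        · left
          omega
        · right
          omega
      · rw [← Int.cast_abs, Int.abs_eq_natAbs]
        rfl
    have h8 : (4 : ℝ) * (X : ℝ) ^ (-(δ / 2)) = 2 * (X : ℝ) ^ (-(δ / 2)) + 2 * (X : ℝ) ^ (-(δ / 2)) := by ring
    rw [h8]
    constructor
    · intro a
      refine almost_of (Pool.Agent.N384.MQ.AlmostF.and (h1 a) (h3 a)) ?_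
      rintro n ⟨hn, hn'⟩ x hXx hxW r hrx
      rw [langTrotter_eq, model_eq, model_eq]
      obtain ⟨j, hj | hj, hj2⟩ := hr r
      · rw [hj]
        exact (hn x hXx hxW).2 j (by rw [hj2]; exact hrx)
      · rw [hj]
        exact (hn' x hXx hxW).2 j (by rw [hj2]; exact hrx)
    · refine almost_of (Pool.Agent.N384.MQ.AlmostF.and h2 h4) ?_
      rintro a ⟨hn, hn'⟩ x hXx hxW r hrx
      rw [model_eq, modelPairs_eq, modelPairs_eq]
      obtain ⟨j, hj | hj, hj2⟩ := hr r
      · rw [hj]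
        exact (hn x hXx hxW).2 j (by rw [hj2]; exact hrx)
      · rw [hj]
        exact (hn' x hXx hxW).2 j (by rw [hj2]; exact hrx)
  · obtain ⟨P₀, h0⟩ := Pool.Agent.N384.MQ.flatK_quot
    exact ⟨P₀, fun p hp _ K hK => ⟨fun R S => h0 p hp K hK R S,
      fun H s hs hc x hx => Pool.Agent.N384.MQ.flatK_coset p H s hs K hK hc x hx,
      fun A B g k hAB => Pool.Agent.N384.MQ.flatK_prod p A B g k K hK hAB⟩⟩
  · exact Pool.Agent.N384.MQ.flatK_poly d hd

end Pool.Agent.Results.MP_f1937f_nt.ResidueFamilies
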