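import Pool.Agent.N368.TS.Pl
import Pool.Agent.N368.TS.Wel

/-!
# Traces and angles of Frobenius in given intervals, jointly for several elliptic curves and at `s` consecutive primes, with
the square root of the expected number as the error, for almost all members of families with `r` parameters along thin
sequences of parameter vectors

From Mathlib: `⌊y⌋`: the integer part of `y`; `Nat.nth Nat.Prime k`: the prime with the index `k`, starting with `k = 0`;
`Set.OrdConnected`: intervals (also `∅`, single points and the whole space); `MvPolynomial.eval t f`: the value of the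
polynomial `f` at `t`; `Fin.castAdd m j` and `Fin.natAdd m j`: `j` and `m + j`.

Method: the vectors `(⌊P₁(n)⌋, ..., ⌊P_r(n)⌋)`, `N < n ≤ 2N`, are uniformly distributed in the residue classes modulo all
integers up to a power of `N`, with a power saving (`Pool.Agent.N666.VE`, `Pool.Agent.N666.TM`, exponential sums and a
truncated Fourier series for the integer parts). The high moments (of order `log N / log K`) of sums of functions of the
residues modulo coprime integers are bounded in terms of the variance (exponential moments, `Pool.Agent.N368.TS.Var`).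
-/

set_option autoImplicit false

namespace Pool.Agent.Results.MP_f1937f_nt.ThinParameterFamilies

open Finset

/-- The function `∑ t ∈ F, a t * x ^ t` has the leading exponent `c`, which is positive and not an integer, with a
positive coefficient. -/
def Admissible (F : Finset ℝ) (a : ℝ → ℝ) (c : ℝ) : Prop :=
  c ∈ F ∧ (∀ t ∈ F, t ≤ c) ∧ 0 < c ∧ (∀ m : ℕ, c ≠ m) ∧ 0 < a c

/-- The vector of the integer parts of the values at `n`. -/
noncomputable def values {r : ℕ} (F : Fin r → Finset ℝ) (a : Fin r → ℝ → ℝ) (n : ℕ) : Fin r → ℤ :=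
  fun l => ⌊∑ t ∈ F l, a l t * (n : ℝ) ^ t⌋

/-- The number of the solutions `(x, y)` of `y² = x³ + A x + B` modulo `p`. -/
def points (p : ℕ) (A B : ℤ) : ℕ :=
  ((range p ×ˢ range p).filter
    (fun xy : ℕ × ℕ => (p : ℤ) ∣ (xy.2 : ℤ) ^ 2 - ((xy.1 : ℤ) ^ 3 + A * xy.1 + B))).card

/-- The number in `[0, 1]` with `cos (π angle) = (p - c) / (2 p ^ (1 / 2))`. -/
noncomputable def angle (p c : ℕ) : ℝ := Real.arccos (((p : ℝ) - c) / (2 * Real.sqrt p)) / Real.pi

/-- The curve `E : y² = x³ + A x + B` has good reduction at `p ≠ 2`, the trace of Frobenius `a_p = p + 1 - #E(F_p)`, which is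
`p - points p A B`, is in `J`, and the Frobenius angle `θ` in `[0, 1]`, `a_p = 2 p ^ (1 / 2) cos (π θ)`, is in `I`. -/
def Frobenius (J : Set ℤ) (I : Set ℝ) (p : ℕ) (A B : ℤ) : Prop :=
  ¬ (p : ℤ) ∣ 2 * (4 * A ^ 3 + 27 * B ^ 2) ∧ (p : ℤ) - points p A B ∈ J ∧ angle p (points p A B) ∈ I

open Classical in
/-- The number of the `k < K` in `D` such that for all `j` and all `i < s` the curve `y² = x³ + A j x + B j` has the
property, with `J i j` and `I i j`, at the prime with the number `k + i` (the primes are numbered from `0`). For `s = m = 1`,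
`J = {a}` and `I = ℝ` this is the number of the primes `p ≤ x` of good reduction with `a_p = a` if `K = π(x)` and `D = ℕ` (up
to the prime `2`). -/
noncomputable def frobeniusCount {s m : ℕ} (A B : Fin m → ℤ) (J : Fin s → Fin m → Set ℤ) (I : Fin s → Fin m → Set ℝ)
    (D : Set ℕ) (K : ℕ) : ℕ :=
  ((range K).filter (fun k => k ∈ D ∧ ∀ (i : Fin s) (j : Fin m),
    Frobenius (J i j) (I i j) (Nat.nth Nat.Prime (k + i)) (A j) (B j))).card

open Classical in
/-- The proportion of the vectors of residues `t` modulo `p` for which the curves `y² = x³ + A j(t) x + B j(t)` have the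
property, with `J j` and `I j`, for all `j`. -/
noncomputable def proportion {r m : ℕ} (A B : Fin m → MvPolynomial (Fin r) ℤ) (p : ℕ) (J : Fin m → Set ℤ)
    (I : Fin m → Set ℝ) : ℝ :=
  ((Fintype.piFinset (fun _ : Fin r => range p)).filter (fun t => ∀ j,
    Frobenius (J j) (I j) p (MvPolynomial.eval (fun l => (t l : ℤ)) (A j))
      (MvPolynomial.eval (fun l => (t l : ℤ)) (B j)))).card / (p : ℝ) ^ r

open Classical in
/-- The expected number: the sum over the `k < K` in `D` of the product of the proportions at the `s` primes. -/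
noncomputable def model {r s m : ℕ} (A B : Fin m → MvPolynomial (Fin r) ℤ) (J : Fin s → Fin m → Set ℤ)
    (I : Fin s → Fin m → Set ℝ) (D : Set ℕ) (K : ℕ) : ℝ :=
  ∑ k ∈ (range K).filter (fun k => k ∈ D), ∏ i : Fin s, proportion A B (Nat.nth Nat.Prime (k + i)) (J i) (I i)

open Classical in
/-- The proportion of the pairs `(A, B)` of residues modulo `p` such that `y² = x³ + A x + B` has the property. -/
noncomputable def pairProportion (p : ℕ) (J : Set ℤ) (I : Set ℝ) : ℝ :=
  ((range p ×ˢ range p).filter (fun z : ℕ × ℕ => Frobenius J I p z.1 z.2)).card / (p : ℝ) ^ 2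

open Classical in
/-- The sum over the `k < K` in `D` of the products of the proportions of the pairs of coefficients. -/
noncomputable def pairModel {s m : ℕ} (J : Fin s → Fin m → Set ℤ) (I : Fin s → Fin m → Set ℝ) (D : Set ℕ) (K : ℕ) : ℝ :=
  ∑ k ∈ (range K).filter (fun k => k ∈ D), ∏ i : Fin s, ∏ j : Fin m,
    pairProportion (Nat.nth Nat.Prime (k + i)) (J i j) (I i j)

theorem points_congr (p : ℕ) {A A' B B' : ℤ} (hA : (p : ℤ) ∣ A - A') (hB : (p : ℤ) ∣ B - B') :
    points p A B = points p A' B' := by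
  unfold points
  congr 1
  apply filter_congr
  intro xy _
  have h : (p : ℤ) ∣ ((xy.2 : ℤ) ^ 2 - ((xy.1 : ℤ) ^ 3 + A * xy.1 + B)) -
      ((xy.2 : ℤ) ^ 2 - ((xy.1 : ℤ) ^ 3 + A' * xy.1 + B')) := by
    have e : ((xy.2 : ℤ) ^ 2 - ((xy.1 : ℤ) ^ 3 + A * xy.1 + B)) -
      ((xy.2 : ℤ) ^ 2 - ((xy.1 : ℤ) ^ 3 + A' * xy.1 + B')) = -((A - A') * xy.1 + (B - B')) := by ring
    rw [e]
    exact (dvd_add (hA.mul_right _) hB).neg_right
  exact (dvd_iff_dvd_of_dvd_sub h)

theorem disc_congr (p : ℕ) {A A' B B' : ℤ} (hA : (p : ℤ) ∣ A - A') (hB : (p : ℤ) ∣ B - B') :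
    (p : ℤ) ∣ 2 * (4 * A ^ 3 + 27 * B ^ 2) ↔ (p : ℤ) ∣ 2 * (4 * A' ^ 3 + 27 * B' ^ 2) := by
  have h : (p : ℤ) ∣ 2 * (4 * A ^ 3 + 27 * B ^ 2) - 2 * (4 * A' ^ 3 + 27 * B' ^ 2) := by
    have e : 2 * (4 * A ^ 3 + 27 * B ^ 2) - 2 * (4 * A' ^ 3 + 27 * B' ^ 2) =
      (A - A') * (8 * (A ^ 2 + A * A' + A' ^ 2)) + (B - B') * (54 * (B + B')) := by ring
    rw [e]
    exact dvd_add (hA.mul_right _) (hB.mul_right _)
  exact dvd_iff_dvd_of_dvd_sub h

theorem eval_congr {r : ℕ} (f : MvPolynomial (Fin r) ℤ) (p : ℕ) {c d : Fin r → ℤ} (h : ∀ l, (p : ℤ) ∣ c l - d l) :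
    (p : ℤ) ∣ MvPolynomial.eval c f - MvPolynomial.eval d f := by
  induction f using MvPolynomial.induction_on with
  | C z => simp
  | add f g hf hg =>
    rw [map_add, map_add]
    have e : MvPolynomial.eval c f + MvPolynomial.eval c g - (MvPolynomial.eval d f + MvPolynomial.eval d g) =
        (MvPolynomial.eval c f - MvPolynomial.eval d f) + (MvPolynomial.eval c g - MvPolynomial.eval d g) := by ring
    rw [e]
    exact dvd_add hf hg
  | mul_X f i hf =>
    rw [map_mul, map_mul, MvPolynomial.eval_X, MvPolynomial.eval_X]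
    have e : MvPolynomial.eval c f * c i - MvPolynomial.eval d f * d i =
        (MvPolynomial.eval c f - MvPolynomial.eval d f) * c i + MvPolynomial.eval d f * (c i - d i) := by ring
    rw [e]
    exact dvd_add (hf.mul_right _) ((h i).mul_left _)

/-- Intervals in a finite set. -/
theorem interval_repr {α : Type} [LinearOrder α] {J : Set α} (hJ : J.OrdConnected) (T : Finset α) :
    (∃ a ∈ T, ∃ b ∈ T, ∀ t ∈ T, (t ∈ J ↔ t ∈ Set.Icc a b)) ∨ (∀ t ∈ T, t ∉ J) := by
  classical
  by_cases h : (T.filter (fun t => t ∈ J)).Nonempty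
  · left
    have h1 := mem_filter.1 (min'_mem _ h)
    have h2 := mem_filter.1 (max'_mem _ h)
    refine ⟨_, h1.1, _, h2.1, fun t ht => ⟨fun htJ => ?_, fun ht2 => hJ.out h1.2 h2.2 ht2⟩⟩
    have h3 := mem_filter.2 (⟨ht, htJ⟩ : t ∈ T ∧ t ∈ J)
    exact ⟨min'_le _ _ h3, le_max' _ _ h3⟩
  · right
    intro t ht htJ
    exact h ⟨t, mem_filter.2 ⟨ht, htJ⟩⟩

/-- The parameters of the properties. -/
abbrev Par : Type := {J : Set ℤ // J.OrdConnected} × {I : Set ℝ // I.OrdConnected}

/-- The property with its parameter. -/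
def Pr (u : Par) (p : ℕ) (A B : ℤ) : Prop := Frobenius u.1.1 u.2.1 p A B

theorem pr_congr (u : Par) (p : ℕ) (A A' B B' : ℤ) (hA : (p : ℤ) ∣ A - A') (hB : (p : ℤ) ∣ B - B') :
    Pr u p A B ↔ Pr u p A' B' := by
  unfold Pr Frobenius
  rw [points_congr p hA hB, disc_congr p hA hB]

/-- The traces at the primes up to `X`. -/
noncomputable def TX (X : ℕ) : Finset ℤ := Icc (-(X : ℤ) ^ 2) X

/-- The angles at the primes up to `X`. -/
noncomputable def AX (X : ℕ) : Finset ℝ := (range (X + 1) ×ˢ range (X ^ 2 + 1)).image (fun z => angle z.1 z.2)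

open Classical in
/-- Representatives of the parameters for the primes up to `X`. -/
noncomputable def Rg (X : ℕ) : Finset Par :=
  ((TX X ×ˢ TX X) ×ˢ (AX X ×ˢ AX X)).image
    (fun z => (⟨Set.Icc z.1.1 z.1.2, Set.ordConnected_Icc⟩, ⟨Set.Icc z.2.1 z.2.2, Set.ordConnected_Icc⟩))

theorem rg_card (X : ℕ) (hX : 1 ≤ X) : (Rg X).card ≤ 144 * X ^ 144 := by
  classical
  have h1 : (TX X).card ≤ 3 * X ^ 2 := by
    unfold TX
    rw [Int.card_Icc]
    have h2 : ((X : ℤ) + 1 - (-(X : ℤ) ^ 2)).toNat = X + 1 + X ^ 2 := by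
      have : ((X : ℤ) + 1 - (-(X : ℤ) ^ 2)) = ((X + 1 + X ^ 2 : ℕ) : ℤ) := by
        push_cast
        ring
      rw [this, Int.toNat_natCast]
    rw [h2]
    nlinarith
  have h2 : (AX X).card ≤ 4 * X ^ 3 := by
    unfold AX
    refine card_image_le.trans ?_
    rw [card_product, card_range, card_range]
    have h3 : X + 1 ≤ 2 * X := by omega
    have h4 : X ^ 2 + 1 ≤ 2 * X ^ 2 := by
      have : 1 ≤ X ^ 2 := Nat.one_le_pow _ _ hX
      omega
    calc (X + 1) * (X ^ 2 + 1) ≤ (2 * X) * (2 * X ^ 2) := Nat.mul_le_mul h3 h4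
      _ = 4 * X ^ 3 := by ring
  unfold Rg
  refine card_image_le.trans ?_
  rw [card_product, card_product, card_product]
  calc (TX X).card * (TX X).card * ((AX X).card * (AX X).card) ≤
        (3 * X ^ 2) * (3 * X ^ 2) * ((4 * X ^ 3) * (4 * X ^ 3)) :=
        Nat.mul_le_mul (Nat.mul_le_mul h1 h1) (Nat.mul_le_mul h2 h2)
    _ = 144 * X ^ 10 := by ring
    _ ≤ 144 * X ^ 144 := Nat.mul_le_mul_left _ (Nat.pow_le_pow_right hX (by norm_num))

theorem rg_spec (u : Par) (X : ℕ) :
    (∃ u' ∈ Rg X, ∀ p : ℕ, p.Prime → p ≤ X → ∀ A B, (Pr u p A B ↔ Pr u' p A B)) ∨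
      (∀ p : ℕ, p.Prime → p ≤ X → ∀ A B, ¬ Pr u p A B) := by
  classical
  have hpt : ∀ (p : ℕ) (A B : ℤ), p ≤ X → points p A B ≤ X ^ 2 := by
    intro p A B hp
    have h2 : points p A B ≤ p ^ 2 := by
      unfold points
      refine (card_filter_le _ _).trans ?_
      rw [card_product, card_range, pow_two]
    exact h2.trans (Nat.pow_le_pow_left hp 2)
  have h1 : ∀ (p : ℕ) (A B : ℤ), p ≤ X → (p : ℤ) - points p A B ∈ TX X := by
    intro p A B hp
    unfold TX
    rw [mem_Icc]
    have h2 : (points p A B : ℤ) ≤ (X : ℤ) ^ 2 := by exact_mod_cast hpt p A B hp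
    have h3 : (p : ℤ) ≤ X := by exact_mod_cast hp
    constructor <;> omega
  have h2 : ∀ (p : ℕ) (A B : ℤ), p ≤ X → angle p (points p A B) ∈ AX X := by
    intro p A B hp
    unfold AX
    rw [mem_image]
    refine ⟨(p, points p A B), ?_, rfl⟩
    rw [mem_product, mem_range, mem_range]
    exact ⟨Nat.lt_succ_of_le hp, Nat.lt_succ_of_le (hpt p A B hp)⟩
  rcases interval_repr u.1.2 (TX X) with ⟨a, ha, b, hb, hab⟩ | hn
  · rcases interval_repr u.2.2 (AX X) with ⟨a', ha', b', hb', hab'⟩ | hn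
    · left
      refine ⟨(⟨Set.Icc a b, Set.ordConnected_Icc⟩, ⟨Set.Icc a' b', Set.ordConnected_Icc⟩), ?_, ?_⟩
      · unfold Rg
        rw [mem_image]
        refine ⟨((a, b), (a', b')), ?_, rfl⟩
        rw [mem_product, mem_product, mem_product]
        exact ⟨⟨ha, hb⟩, ha', hb'⟩
      · intro p _ hp A B
        unfold Pr Frobenius
        simp only
        rw [hab _ (h1 p A B hp), hab' _ (h2 p A B hp)]
    · right
      intro p _ hp A B h
      exact hn _ (h2 p A B hp) h.2.2
  · right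
    intro p _ hp A B h
    exact hn _ (h1 p A B hp) h.2.1

open Classical in
/-- Let `P₁, ..., P_r`, `r ≥ 1`, be generalised polynomials (finite sums of real powers with real coefficients) whose leading
exponents are positive, not integers and distinct, with positive leading coefficients; let `s ≥ 1`, `m` and `δ > 0` be given.
There are `κ > 0` and `C`, and `C'(M)` for the matrices `M`, such that for all `N ≥ 1` and every set `W` of at most `N ^ κ`
sets of indices, with `t = (⌊P₁(n)⌋, ..., ⌊P_r(n)⌋)`: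

(1) for all polynomials `A₁, B₁, ..., A_m, B_m ∈ ℤ[T₁, ..., T_r]`, all `N < n ≤ 2 N` with at most `C N ^ (1 - κ)` exceptions
satisfy, for all `D ∈ W`, all `K ≤ N ^ κ` and all intervals `J i j` of integers and `I i j` of real numbers: the number of the
`k < K` in `D` for which the traces and the angles of Frobenius of the curves `y² = x³ + A_j(t) x + B_j(t)` at the primes with
the numbers `k, ..., k + s - 1` are in `J i j` and `I i j` is the expected number `S`, the sum of the products of the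
proportions for the vectors of residues modulo these primes, up to `C max (1, S) ^ (1 / 2) K ^ δ (1 + log N)`;

(2) if the coefficients are `2 m` affine forms with integer coefficients whose linear parts (the rows of `M`) are linearly
independent, then the same holds with the proportions of all pairs of coefficients modulo the primes, with the constant
`C'(M)` in the bound, for all constant terms. -/
theorem result (r m s : ℕ) (hr : 1 ≤ r) (hs : 1 ≤ s) (F : Fin r → Finset ℝ) (a : Fin r → ℝ → ℝ) (c : Fin r → ℝ)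
    (h : ∀ l, Admissible (F l) (a l) (c l)) (hc : Function.Injective c) (δ : ℝ) (hδ : 0 < δ) :
    ∃ κ C : ℝ, 0 < κ ∧ 0 < C ∧
      (∀ (A B : Fin m → MvPolynomial (Fin r) ℤ) (N : ℕ), 1 ≤ N → ∀ W : Finset (Set ℕ), (W.card : ℝ) ≤ (N : ℝ) ^ κ →
        (((Ioc N (2 * N)).filter (fun n : ℕ => ¬ ∀ D ∈ W, ∀ K : ℕ, (K : ℝ) ≤ (N : ℝ) ^ κ →
          ∀ (J : Fin s → Fin m → Set ℤ) (I : Fin s → Fin m → Set ℝ), (∀ i j, (J i j).OrdConnected) →
            (∀ i j, (I i j).OrdConnected) →
            |(frobeniusCount (fun j => MvPolynomial.eval (values F a n) (A j))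
              (fun j => MvPolynomial.eval (values F a n) (B j)) J I D K : ℝ) - model A B J I D K| ≤
                C * (√(max 1 (model A B J I D K)) * (K : ℝ) ^ δ * (1 + Real.log N)))).card : ℝ) ≤
          C * (N : ℝ) ^ (1 - κ)) ∧
      (∀ M : Fin (m + m) → Fin r → ℤ, LinearIndependent ℤ M → ∃ C' : ℝ, 0 < C' ∧
        ∀ (c₀ : Fin (m + m) → ℤ) (N : ℕ), 1 ≤ N → ∀ W : Finset (Set ℕ), (W.card : ℝ) ≤ (N : ℝ) ^ κ →
        (((Ioc N (2 * N)).filter (fun n : ℕ => ¬ ∀ D ∈ W, ∀ K : ℕ, (K : ℝ) ≤ (N : ℝ) ^ κ →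
          ∀ (J : Fin s → Fin m → Set ℤ) (I : Fin s → Fin m → Set ℝ), (∀ i j, (J i j).OrdConnected) →
            (∀ i j, (I i j).OrdConnected) →
            |(frobeniusCount (fun j => c₀ (Fin.castAdd m j) + ∑ l, M (Fin.castAdd m j) l * values F a n l)
              (fun j => c₀ (Fin.natAdd m j) + ∑ l, M (Fin.natAdd m j) l * values F a n l) J I D K : ℝ) -
                pairModel J I D K| ≤
                C' * (√(max 1 (pairModel J I D K)) * (K : ℝ) ^ δ * (1 + Real.log N)))).card : ℝ) ≤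
          C * (N : ℝ) ^ (1 - κ)) := by
  have : Nonempty (Fin r) := ⟨⟨0, hr⟩⟩
  obtain ⟨⟨ρ, σ, C₀, hv⟩, -⟩ := Pool.Agent.N368.TS.fl_pev h hc
  obtain ⟨κ₁, C₁, h1, h1', h1'', H1⟩ := Pool.Agent.N368.TS.props3 hv m s hs δ hδ Par Pr pr_congr Rg 144 rg_card rg_spec
  obtain ⟨κ₂, C₂, h2, h2', h2'', H2⟩ := Pool.Agent.N368.TS.props_lin3 hv m s hs δ hδ Par Pr pr_congr Rg 144 rg_card rg_spec
  have hm0 : 0 < min κ₁ κ₂ := lt_min h1 h2
  refine ⟨min κ₁ κ₂, max C₁ C₂, hm0, lt_of_lt_of_le (by linarith) (le_max_left _ _), ?_, ?_⟩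
  · intro A B N hN W hW
    have hNr : (1 : ℝ) ≤ N := by exact_mod_cast hN
    have hκ : ∀ x : ℝ, x ≤ (N : ℝ) ^ min κ₁ κ₂ → x ≤ (N : ℝ) ^ κ₁ := fun x hx =>
      hx.trans (Real.rpow_le_rpow_of_exponent_le hNr (min_le_left _ _))
    obtain ⟨E, hE1, hE2⟩ := H1 (fun j t => MvPolynomial.eval t (A j)) (fun j t => MvPolynomial.eval t (B j))
      (fun p j c d hcd => eval_congr _ p hcd) (fun p j c d hcd => eval_congr _ p hcd) N hN W (hκ _ hW)
    have hE3 : (E.card : ℝ) ≤ max C₁ C₂ * (N : ℝ) ^ (1 - min κ₁ κ₂) := by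
      refine hE1.trans (mul_le_mul (le_max_left _ _) ?_ (by positivity) (by linarith [le_max_left C₁ C₂]))
      exact Real.rpow_le_rpow_of_exponent_le hNr (by linarith [min_le_left κ₁ κ₂])
    refine le_trans (Nat.cast_le.2 (card_le_card fun n hn => ?_)) hE3
    rw [mem_filter] at hn
    by_contra hnE
    apply hn.2
    intro D hD K hK J I hJ hI
    have h4 := hE2 n hn.1 hnE D hD K (hκ _ hK) (fun i j => (⟨J i j, hJ i j⟩, ⟨I i j, hI i j⟩))
    have e1 : (frobeniusCount (fun j => MvPolynomial.eval (values F a n) (A j))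
        (fun j => MvPolynomial.eval (values F a n) (B j)) J I D K : ℝ) =
        ((((range K).filter (fun k => k ∈ D ∧ ∀ (i : Fin s) (j : Fin m),
          Pr (⟨J i j, hJ i j⟩, ⟨I i j, hI i j⟩) (Pool.Agent.TH869.SQ.pr (k + i))
            (MvPolynomial.eval (values F a n) (A j)) (MvPolynomial.eval (values F a n) (B j)))).card : ℕ) : ℝ) := rfl
    have e2 : model A B J I D K = ∑ k ∈ (range K).filter (fun k => k ∈ D), ∏ i : Fin s,
        Pool.Agent.N368.TS.av (Pool.Agent.TH869.SQ.pr (k + i)) (fun t : Fin r → ℤ =>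
          if ∀ j, Pr (⟨J i j, hJ i j⟩, ⟨I i j, hI i j⟩) (Pool.Agent.TH869.SQ.pr (k + i)) (MvPolynomial.eval t (A j))
            (MvPolynomial.eval t (B j)) then 1 else 0) := by
      unfold model proportion Pool.Agent.N368.TS.av Pool.Agent.N368.TS.bx Pool.Agent.TH869.SQ.pr
      refine sum_congr rfl fun k _ => prod_congr rfl fun i _ => ?_
      rw [card_filter, Nat.cast_sum, Fintype.card_fin]
      congr 1
      refine sum_congr rfl fun t _ => ?_
      rw [Nat.cast_ite, Nat.cast_one, Nat.cast_zero]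
      rfl
    rw [e1, e2]
    refine h4.trans ?_
    unfold Pool.Agent.N368.TS.lamU
    refine mul_le_mul_of_nonneg_right (le_max_left _ _) ?_
    have : 0 ≤ Real.log N := Real.log_nonneg hNr
    positivity
  · intro M hM
    obtain ⟨C', hC', H3⟩ := H2 M hM
    refine ⟨C', by linarith, ?_⟩
    intro c₀ N hN W hW
    have hNr : (1 : ℝ) ≤ N := by exact_mod_cast hN
    have hκ : ∀ x : ℝ, x ≤ (N : ℝ) ^ min κ₁ κ₂ → x ≤ (N : ℝ) ^ κ₂ := fun x hx =>
      hx.trans (Real.rpow_le_rpow_of_exponent_le hNr (min_le_right _ _))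
    obtain ⟨E, hE1, hE2⟩ := H3 c₀ N hN W (hκ _ hW)
    have hE3 : (E.card : ℝ) ≤ max C₁ C₂ * (N : ℝ) ^ (1 - min κ₁ κ₂) := by
      refine hE1.trans (mul_le_mul (le_max_right _ _) ?_ (by positivity) (by linarith [le_max_left C₁ C₂]))
      exact Real.rpow_le_rpow_of_exponent_le hNr (by linarith [min_le_right κ₁ κ₂])
    refine le_trans (Nat.cast_le.2 (card_le_card fun n hn => ?_)) hE3
    rw [mem_filter] at hn
    by_contra hnE
    apply hn.2
    intro D hD K hK J I hJ hI
    have h4 := hE2 n hn.1 hnE D hD K (hκ _ hK) (fun i j => (⟨J i j, hJ i j⟩, ⟨I i j, hI i j⟩))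
    exact h4

end Pool.Agent.Results.MP_f1937f_nt.ThinParameterFamilies
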